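import Pool.Agent.Lib_helper1.SRCH.Small
import Pool.Agent.Lib_helper55.M1.IIIA1

set_option autoImplicit false

/-! # The base case of (IIIA), `m = 1`, for `2 ≤ l ≤ 20` -/

namespace Pool.Agent.Lib_helper1.SRCH

open Pool.Agent.Lib_helper55.M1

theorem base1_small : ∀ l : ℕ, 2 ≤ l → l ≤ 20 → Base1 l := by
  intro l h2 h20
  obtain ⟨g, G0, G1, G2, h⟩ := cert_small l h2 h20
  exact base1_of_cert h

end Pool.Agent.Lib_helper1.SRCH
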