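import Pool.Agent.Lib_helper1.SRCH.HonestCheck
import Pool.Agent.Lib_helper55.M1.Iface

set_option autoImplicit false

/-! # The checked data give a certificate for helper55's interface -/

namespace Pool.Agent.Lib_helper1.SRCH

open PowerSeries Finset
open Pool.Agent.Lib_helper36.SRC
open Pool.Agent.Lib_helper55.M1

lemma D_eq (l : ℕ) : D l = DD l := rfl

lemma S_eq (l : ℕ) : Lib_helper55.M1.S l = SS l := by
  unfold Lib_helper55.M1.S SS K kl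
  rw [pow_succ]; ring

theorem Dat.cert {A : Dat} {k : ℕ} (h : A.Ok k) :
    ∃ (g : ℝ) (G0 G1 G2 : ℝ⟦X⟧), Cert1 (k + 2) g G0 G1 G2 := by
  obtain ⟨hKg, hK, c1, c2, c3, cA, cB⟩ := h
  generalize e1 : lift1 (gad (k + 2) A.q1 A.r1) = L1 at c1
  generalize e2 : lift1 (gad (k + 2) A.q2 A.r2) = L2 at c2
  generalize e3 : lift1 (gad (k + 2) A.q3 A.r3) = L3 at c3
  generalize eA : A.fA (k + 2) = LA at cA
  generalize eB : A.fB (k + 2) = LB at cB
  have hM : (0 : ℤ) < 8 * 2 ^ k := by positivity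
  have hz : 8 * (0 : ℝ) ≤ 1 := by norm_num
  have i1 := inW_of_chk L1 _ _ _ hM c1 le_rfl hz
  have i2 := inW_of_chk L2 _ _ _ hM c2 le_rfl hz
  have i3 := inW_of_chk L3 _ _ _ hM c3 le_rfl hz
  rw [← e1, ev2_lift] at i1
  rw [← e2, ev2_lift] at i2
  rw [← e3, ev2_lift] at i3
  set G1 := ev1 (X : ℝ⟦X⟧) (gad (k + 2) A.q1 A.r1) with hG1
  set G2 := ev1 (X : ℝ⟦X⟧) (gad (k + 2) A.q2 A.r2) with hG2
  set G3 := ev1 (X : ℝ⟦X⟧) (gad (k + 2) A.q3 A.r3) with hG3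
  have hK' : (0 : ℝ) < A.K := by exact_mod_cast hK
  have hp : (0 : ℝ) < 2 ^ (k + 3) := by positivity
  have hmm : mm (k + 2) = ((mM k : ℤ) : ℝ) / (8 * 2 ^ k) := by
    rw [mM_eq]; unfold mm; push_cast; ring
  have ha0 : (0 : ℝ) ≤ 1 / (A.K * 2 ^ (k + 3)) := by positivity
  have h4 : (4 : ℝ⟦X⟧) = C (4 : ℝ) := (map_ofNat C 4).symm
  have h2 : (2 : ℝ⟦X⟧) = C (2 : ℝ) := (map_ofNat C 2).symm
  refine ⟨A.g / A.K, C (1 / ((A.K : ℝ) * 2 ^ (k + 3))) * G1, C (1 / ((A.K : ℝ) * 2 ^ (k + 3))) * G2,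
    C (1 / ((A.K : ℝ) * 2 ^ (k + 3))) * G3, ⟨?_, ?_, ?_, ?_, ?_, ?_⟩⟩
  · rw [div_le_one hK']; exact_mod_cast hKg
  · refine (i1.smul ha0).congr ?_ rfl
    rw [hmm]; push_cast; field_simp; ring
  · refine (i2.smul ha0).congr ?_ rfl
    rw [hmm]; push_cast; field_simp; ring
  · refine (i3.smul ha0).congr ?_ rfl
    rw [hmm]; push_cast; field_simp; ring
  · intro ρ h0 h1
    have iA := inW_of_chk LA _ _ _ hM cA h0 (by linarith)
    rw [← eA] at iA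
    unfold Dat.fA at iA
    rw [ev2_add, ev2_smul, ev2_smul, ev2_lift, ev2_lift, datD_eq, ev1_add, ev1_add, ← hG1, ← hG2,
      ← hG3] at iA
    have q1 : ev1 (C ρ : ℝ⟦X⟧) [A.K, -4 * A.g] = C ((A.K : ℝ) - 4 * ρ * A.g) := by
      simp only [ev1_cons, ev1_nil, mul_zero, add_zero, map_sub, map_mul, map_intCast, ← h4]
      push_cast; ring
    have q2 : ev1 (C ρ : ℝ⟦X⟧) [-1, 4] = C (-(1 - 4 * ρ)) := by
      simp only [ev1_cons, ev1_nil, mul_zero, add_zero, map_sub, map_mul, map_neg, map_one, ← h4]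
      push_cast; ring
    rw [q1, q2] at iA
    refine (iA.smul (c := 1 / (4 * (A.K * 2 ^ (k + 3)))) (by positivity)).congr ?_ ?_
    · rw [hmm]; push_cast; field_simp; ring
    · rw [D_eq]
      have r1 : (C (1 / (4 * ((A.K : ℝ) * 2 ^ (k + 3)))) : ℝ⟦X⟧) * C ((A.K : ℝ) - 4 * ρ * A.g) *
          C (2 ^ (k + 2 + 1)) = C (1 / 4 - ρ * (A.g / A.K)) := by
        rw [← map_mul, ← map_mul]
        congr 1
        field_simp
      have r2 : (C (1 / (4 * ((A.K : ℝ) * 2 ^ (k + 3)))) : ℝ⟦X⟧) * C (-(1 - 4 * ρ)) =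
          - (C (1 / 4 - ρ) * C (1 / ((A.K : ℝ) * 2 ^ (k + 3)))) := by
        rw [← map_mul, ← map_mul, ← map_neg]
        congr 1
        field_simp
      linear_combination (DD (k + 2)) * r1 + (G1 + G2 + G3) * r2
  · intro ρ h0 h1
    have iB := inW_of_chk LB _ _ _ hM cB h0 (by linarith)
    rw [← eB] at iB
    unfold Dat.fB at iB
    rw [ev2_add, ev2_smul, ev2_smul, ev2_lift, ev2_lift, datS_eq, ev1_add, ev1_add, ev1_mul, ev1_mul,
      ev1_mul, ← hG1, ← hG2, ← hG3] at iB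
    have q1 : ev1 (C ρ : ℝ⟦X⟧) [4 * A.K, -16 * A.g] = C (4 * ((A.K : ℝ) - 4 * ρ * A.g)) := by
      simp only [ev1_cons, ev1_nil, mul_zero, add_zero, map_sub, map_mul, map_intCast, ← h4]
      push_cast; ring
    have q2 : ev1 (C ρ : ℝ⟦X⟧) [-1, 4] = C (-(1 - 4 * ρ)) := by
      simp only [ev1_cons, ev1_nil, mul_zero, add_zero, map_sub, map_mul, map_neg, map_one, ← h4]
      push_cast; ring
    have t0 : ev1 (X : ℝ⟦X⟧) [0, 4] = 4 * X := by simp; ring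
    have t1 : ev1 (X : ℝ⟦X⟧) [2, 2] = 2 * (1 + X) := by simp; ring
    have t2 : ev1 (X : ℝ⟦X⟧) [3, 1] = 3 + X := by simp
    rw [q1, q2, t0, t1, t2] at iB
    refine (iB.smul (c := 1 / (16 * (A.K * 2 ^ (k + 3)))) (by positivity)).congr ?_ ?_
    · rw [hmm]; push_cast; field_simp
    · rw [S_eq]
      have r1 : (C (1 / (16 * ((A.K : ℝ) * 2 ^ (k + 3)))) : ℝ⟦X⟧) * C (4 * ((A.K : ℝ) - 4 * ρ * A.g)) *
          C (2 ^ (k + 2 + 1)) = C (1 / 4 - ρ * (A.g / A.K)) := by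
        rw [← map_mul, ← map_mul]
        congr 1
        field_simp
        norm_num
      have r2 : 4 * ((C (1 / (16 * ((A.K : ℝ) * 2 ^ (k + 3)))) : ℝ⟦X⟧) * C (-(1 - 4 * ρ))) =
          - (C (1 / 4 - ρ) * C (1 / ((A.K : ℝ) * 2 ^ (k + 3)))) := by
        rw [h4, ← map_mul, ← map_mul, ← map_mul, ← map_neg]
        congr 1
        field_simp
        ring
      have s1 : 2 * (C (1 / 2) : ℝ⟦X⟧) = 1 := by
        rw [h2, ← map_one C, ← map_mul]; congr 1; norm_num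
      have s2 : 4 * (C (1 / 4) : ℝ⟦X⟧) = 1 := by
        rw [h4, ← map_one C, ← map_mul]; congr 1; norm_num
      generalize (C (1 / 2) : ℝ⟦X⟧) = u1 at s1 ⊢
      generalize (C (1 / 4) : ℝ⟦X⟧) = u2 at s2 ⊢
      generalize (C (1 / (16 * ((A.K : ℝ) * 2 ^ (k + 3)))) : ℝ⟦X⟧) = Q at r1 r2 ⊢
      generalize (C (-(1 - 4 * ρ)) : ℝ⟦X⟧) = N at r2 ⊢
      linear_combination (SS (k + 2)) * r1 +
        (X * G1 + (1 + u1 * (X - 1)) * G2 + (1 + u2 * (X - 1)) * G3) * r2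
        - Q * N * (2 * (X - 1) * G2 * s1 + (X - 1) * G3 * s2)

end Pool.Agent.Lib_helper1.SRCH
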