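import Pool.Agent.Lib_helper36.SRC.Coef

set_option autoImplicit false

/-! # A reflective checker for memberships in the cone `W ν`

Polynomials in one variable `r` (integer coefficients) are lists of integers, polynomials in two
variables are lists of lists.  `chk f M a b = true` implies
`InW ((a + b r) / M) (∑ j, f_j(r) X^j)` for every real `r` with `0 ≤ 8 r ≤ 1`. -/

namespace Pool.Agent.Lib_helper1.SRCH

open PowerSeries Finset
open Pool.Agent.Lib_helper36.SRC

/-! ## integer polynomials -/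

def add1 : List ℤ → List ℤ → List ℤ
  | [], b => b
  | x :: a, [] => x :: a
  | x :: a, y :: b => (x + y) :: add1 a b

def smul1 (c : ℤ) : List ℤ → List ℤ
  | [] => []
  | x :: a => (c * x) :: smul1 c a

def mul1 : List ℤ → List ℤ → List ℤ
  | [], _ => []
  | x :: a, b => add1 (smul1 x b) (0 :: mul1 a b)

def add2 : List (List ℤ) → List (List ℤ) → List (List ℤ)
  | [], b => b
  | x :: a, [] => x :: a
  | x :: a, y :: b => add1 x y :: add2 a b

def smul2 (c : List ℤ) : List (List ℤ) → List (List ℤ)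
  | [] => []
  | x :: a => mul1 c x :: smul2 c a

def mul2 : List (List ℤ) → List (List ℤ) → List (List ℤ)
  | [], _ => []
  | x :: a, b => add2 (smul2 x b) ([] :: mul2 a b)

section ev

variable {R : Type*} [CommRing R]

def ev1 (r : R) : List ℤ → R
  | [] => 0
  | c :: cs => (c : R) + r * ev1 r cs

def ev2 (x r : R) : List (List ℤ) → R
  | [] => 0
  | c :: cs => ev1 r c + x * ev2 x r cs

@[simp] lemma ev1_nil (r : R) : ev1 r [] = 0 := rfl
@[simp] lemma ev1_cons (r : R) (c : ℤ) (cs : List ℤ) : ev1 r (c :: cs) = (c : R) + r * ev1 r cs := rfl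
@[simp] lemma ev2_nil (x r : R) : ev2 x r [] = 0 := rfl
@[simp] lemma ev2_cons (x r : R) (c : List ℤ) (cs : List (List ℤ)) :
    ev2 x r (c :: cs) = ev1 r c + x * ev2 x r cs := rfl

lemma ev1_add (r : R) : ∀ a b : List ℤ, ev1 r (add1 a b) = ev1 r a + ev1 r b
  | [], b => by simp [add1]
  | x :: a, [] => by simp [add1]
  | x :: a, y :: b => by
    simp only [add1, ev1_cons, ev1_add r a b]; push_cast; ring

lemma ev1_smul (r : R) (c : ℤ) : ∀ a : List ℤ, ev1 r (smul1 c a) = (c : R) * ev1 r a
  | [] => by simp [smul1]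
  | x :: a => by simp only [smul1, ev1_cons, ev1_smul r c a]; push_cast; ring

lemma ev1_mul (r : R) : ∀ a b : List ℤ, ev1 r (mul1 a b) = ev1 r a * ev1 r b
  | [], b => by simp [mul1]
  | x :: a, b => by
    simp only [mul1, ev1_add, ev1_smul, ev1_cons, ev1_mul r a b]; push_cast; ring

lemma ev2_add (x r : R) : ∀ a b : List (List ℤ), ev2 x r (add2 a b) = ev2 x r a + ev2 x r b
  | [], b => by simp [add2]
  | u :: a, [] => by simp [add2]
  | u :: a, v :: b => by
    simp only [add2, ev2_cons, ev1_add, ev2_add x r a b]; ring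

lemma ev2_smul (x r : R) (c : List ℤ) : ∀ a : List (List ℤ), ev2 x r (smul2 c a) = ev1 r c * ev2 x r a
  | [] => by simp [smul2]
  | u :: a => by simp only [smul2, ev2_cons, ev1_mul, ev2_smul x r c a]; ring

lemma ev2_mul (x r : R) : ∀ a b : List (List ℤ), ev2 x r (mul2 a b) = ev2 x r a * ev2 x r b
  | [], b => by simp [mul2]
  | u :: a, b => by
    simp only [mul2, ev2_add, ev2_smul, ev2_cons, ev2_mul x r a b, ev1_nil]; ring

end ev

/-! ## lower bounds on `0 ≤ 8 r ≤ 1` -/

/-- `8 ^ length` times a lower bound of `ev1 r` on `0 ≤ 8 r ≤ 1` -/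
def lb : List ℤ → ℤ
  | [] => 0
  | c :: cs => c * 8 ^ (cs.length + 1) + min 0 (lb cs)

lemma lb_le {r : ℝ} (h0 : 0 ≤ r) (h1 : 8 * r ≤ 1) :
    ∀ a : List ℤ, ((lb a : ℤ) : ℝ) ≤ 8 ^ a.length * ev1 r a
  | [] => by simp [lb]
  | c :: cs => by
    have ih := lb_le h0 h1 cs
    have h2 : ((min 0 (lb cs) : ℤ) : ℝ) ≤ 8 * r * (8 ^ cs.length * ev1 r cs) := by
      rcases le_total 0 (lb cs) with h | h
      · rw [min_eq_left h]
        have : (0 : ℝ) ≤ (lb cs : ℝ) := by exact_mod_cast h
        have := this.trans ih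
        push_cast
        positivity
      · rw [min_eq_right h]
        have h' : ((lb cs : ℤ) : ℝ) ≤ 0 := by exact_mod_cast h
        calc ((lb cs : ℤ) : ℝ) = 1 * (lb cs : ℝ) := by ring
          _ ≤ (8 * r) * (lb cs : ℝ) := mul_le_mul_of_nonpos_right h1 h'
          _ ≤ _ := mul_le_mul_of_nonneg_left ih (by positivity)
    rw [lb, ev1_cons, List.length_cons]
    push_cast
    push_cast at h2
    calc (c : ℝ) * 8 ^ (cs.length + 1) + min 0 (lb cs : ℝ)
        ≤ (c : ℝ) * 8 ^ (cs.length + 1) + 8 * r * (8 ^ cs.length * ev1 r cs) := by linarith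
      _ = 8 ^ (cs.length + 1) * (c + r * ev1 r cs) := by ring

lemma ev1_nonneg {r : ℝ} (h0 : 0 ≤ r) (h1 : 8 * r ≤ 1) {a : List ℤ} (h : 0 ≤ lb a) : 0 ≤ ev1 r a := by
  have h2 := lb_le h0 h1 a
  have h3 : (0 : ℝ) ≤ (lb a : ℝ) := by exact_mod_cast h
  have h4 := h3.trans h2
  exact nonneg_of_mul_nonneg_right h4 (by positivity)

/-- all inner lists have nonnegative lower bounds -/
def allnn : List (List ℤ) → Bool
  | [] => true
  | c :: cs => decide (0 ≤ lb c) && allnn cs

lemma ev2_nonneg {r k : ℝ} (h0 : 0 ≤ r) (h1 : 8 * r ≤ 1) (hk : 0 ≤ k) :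
    ∀ {a : List (List ℤ)}, allnn a = true → 0 ≤ ev2 k r a
  | [], _ => by simp
  | c :: cs, h => by
    rw [allnn, Bool.and_eq_true, decide_eq_true_eq] at h
    have i1 := ev1_nonneg h0 h1 h.1
    have i2 := ev2_nonneg h0 h1 hk h.2
    rw [ev2_cons]; positivity

/-! ## the levels -/

/-- Horner scheme for a level `n`; `c j = n (n-1) .. (n-j+1) M^j` -/
noncomputable def acc (F : ℕ → ℝ) (M nu n : ℝ) (c : ℕ → ℝ) : ℕ → ℝ
  | 0 => 0
  | j + 1 => acc F M nu n c j * (M * n - nu) + F j * (c j * (M * j - nu))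

lemma acc_eq (F : ℕ → ℝ) (M nu : ℝ) (hM : M ≠ 0) (n : ℕ) (c : ℕ → ℝ)
    (hc : ∀ j, c j = (n.descFactorial j : ℝ) * M ^ j) :
    ∀ j ≤ n, (M * n - nu) ^ (n - j) * acc F M nu n c j
      = n.factorial * M ^ n * ∑ i ∈ range j, F i * coeff (n - i) (ab (i - nu / M))
  | 0, _ => by simp [acc]
  | j + 1, hj => by
    have ih := acc_eq F M nu hM n c hc j (by omega)
    rw [sum_range_succ, mul_add, ← ih, acc]
    have e1 : n - j = (n - (j + 1)) + 1 := by omega
    have hf : (n.factorial : ℝ) = n.descFactorial j * (n - j).factorial := by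
      have := Nat.factorial_mul_descFactorial (n := n) (k := j) (by omega)
      rw [← this]; push_cast; ring
    have e2 : coeff (n - j) (ab ((j : ℝ) - nu / M))
        = ((j : ℝ) - nu / M) * ((n : ℝ) - nu / M) ^ (n - j - 1) / (n - j).factorial := by
      rw [coeff_ab_pos (by omega)]
      congr 3
      rw [Nat.cast_sub (by omega)]; ring
    have f0 : ((n - j).factorial : ℝ) ≠ 0 := by positivity
    have e3 : n - j - 1 = n - (j + 1) := by omega
    rw [e2, e3, hf, hc j]
    have e4 : (M * n - nu) = M * ((n : ℝ) - nu / M) := by field_simp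
    have e5 : (M * j - nu) = M * ((j : ℝ) - nu / M) := by field_simp
    rw [e4, e5]
    have e6 : (M : ℝ) ^ n = M ^ j * M ^ (n - (j + 1)) * M := by
      rw [← pow_add, ← pow_succ]; congr 1; omega
    rw [e6, e1]
    generalize (n : ℝ) - nu / M = u
    generalize (j : ℝ) - nu / M = v
    generalize acc F M nu n c j = w
    rw [mul_pow, mul_pow]
    field_simp
    rw [pow_succ M, pow_succ u]
    ring

/-- the polynomial `∑ F_j x^j` is in `W ν` if its levels are nonnegative -/
theorem inW_of_levels (ν : ℝ) (d : ℕ) (F : ℕ → ℝ)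
    (h : ∀ n, 0 ≤ ∑ i ∈ range (n + 1), (if i < d then F i else 0) * coeff (n - i) (ab (i - ν))) :
    InW ν (∑ j ∈ range d, C (F j) * X ^ j) := by
  apply InW.intro (τ := ∑ j ∈ range d, C (F j) * (X ^ j * ab (j - ν)))
  · intro n
    have e : coeff n (∑ j ∈ range d, C (F j) * (X ^ j * ab ((j : ℝ) - ν)))
        = ∑ i ∈ range (n + 1), (if i < d then F i else 0) * coeff (n - i) (ab (i - ν)) := by
      rw [map_sum]
      have h1 : ∀ j ∈ range d, coeff n (C (F j) * (X ^ j * ab ((j : ℝ) - ν)))
          = if j ≤ n then F j * coeff (n - j) (ab (j - ν)) else 0 := by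
        intro j _
        rw [coeff_C_mul, coeff_X_pow_mul']
        split_ifs <;> simp
      rw [sum_congr rfl h1]
      have h2 : ∀ i ∈ range (n + 1), (if i < d then F i else 0) * coeff (n - i) (ab ((i : ℝ) - ν))
          = if i < d then F i * coeff (n - i) (ab ((i : ℝ) - ν)) else 0 := by
        intro i _
        split_ifs <;> simp
      rw [sum_congr rfl h2, ← sum_filter, ← sum_filter]
      apply sum_congr _ (fun _ _ => rfl)
      ext i
      simp only [mem_filter, mem_range]
      omega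
    rw [e]; exact h n
  · rw [map_sum, mul_sum]
    apply sum_congr rfl
    intro j _
    rw [map_mul, map_mul, S_C, S_X_pow, S_ab]
    have : Ex ν * (Ex (-(j : ℝ)) * Ex ((j : ℝ) - ν)) = 1 := by
      rw [← Ex_add, ← Ex_add]
      have : ν + (-(j : ℝ) + ((j : ℝ) - ν)) = 0 := by ring
      rw [this, Ex_zero]
    linear_combination (-(C (F j) * X ^ j)) * this

/-! ## the checker -/

/-- `M n - ν'` etc. as lists; `nu = [a, b]` -/
def lin (u a b : ℤ) : List ℤ := [u - a, -b]

def accL (f : List (List ℤ)) (M a b : ℤ) (n : ℕ) : ℕ → List ℤ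
  | 0 => []
  | j + 1 => add1 (mul1 (lin (M * n) a b) (accL f M a b n j))
      (mul1 (smul1 ((n.descFactorial j : ℤ) * M ^ j) (lin (M * j) a b)) (f.getD j []))

/-- `n! M^n` times level `n` for `n < f.length` -/
def levL (f : List (List ℤ)) (M a b : ℤ) (n : ℕ) : List ℤ :=
  add1 (accL f M a b n n) (smul1 ((n.factorial : ℤ) * M ^ n) (f.getD n []))

def cc2 (M : ℤ) (base : ℕ) : ℕ → List (List ℤ)
  | 0 => [[1]]
  | j + 1 => mul2 [[M * ((base : ℤ) - j)], [M]] (cc2 M base j)

def accL2 (f : List (List ℤ)) (M a b : ℤ) (base : ℕ) : ℕ → List (List ℤ)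
  | 0 => []
  | j + 1 => add2 (mul2 [[M * base - a, -b], [M]] (accL2 f M a b base j))
      (smul2 (mul1 (lin (M * j) a b) (f.getD j [])) (cc2 M base j))

def chk (f : List (List ℤ)) (M a b : ℤ) : Bool :=
  (List.range f.length).all (fun n => decide (0 ≤ lb (levL f M a b n))) &&
  decide (0 ≤ lb (lin (M * f.length) a b)) && allnn (accL2 f M a b f.length f.length)

lemma ev1_lin (r : ℝ) (u a b : ℤ) : ev1 r (lin u a b) = u - (a + b * r) := by
  unfold lin; simp; ring

lemma ev1_accL (f : List (List ℤ)) (M a b : ℤ) (n : ℕ) (r : ℝ) : ∀ j,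
    ev1 r (accL f M a b n j) = acc (fun j => ev1 r (f.getD j [])) M (a + b * r) n
      (fun j => (n.descFactorial j : ℝ) * (M : ℝ) ^ j) j
  | 0 => by simp [accL, acc]
  | j + 1 => by
    rw [accL, acc, ev1_add, ev1_mul, ev1_mul, ev1_smul, ev1_lin, ev1_lin, ev1_accL f M a b n r j]
    push_cast
    ring

lemma ev2_cc2 (M : ℤ) (base : ℕ) (r : ℝ) (k : ℕ) : ∀ j ≤ base,
    ev2 (k : ℝ) r (cc2 M base j) = ((base + k).descFactorial j : ℝ) * (M : ℝ) ^ j
  | 0, _ => by simp [cc2]
  | j + 1, hj => by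
    rw [cc2, ev2_mul, ev2_cc2 M base r k j (by omega), Nat.descFactorial_succ]
    have e : ((base + k - j : ℕ) : ℝ) = (base : ℝ) + k - j := by
      rw [Nat.cast_sub (by omega)]; push_cast; ring
    simp
    rw [e]
    ring

lemma ev2_accL2 (f : List (List ℤ)) (M a b : ℤ) (base : ℕ) (r : ℝ) (k : ℕ) : ∀ j ≤ base,
    ev2 (k : ℝ) r (accL2 f M a b base j)
      = acc (fun j => ev1 r (f.getD j [])) M (a + b * r) ((base + k : ℕ) : ℝ)
      (fun j => ((base + k).descFactorial j : ℝ) * (M : ℝ) ^ j) j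
  | 0, _ => by simp [accL2, acc]
  | j + 1, hj => by
    rw [accL2, acc, ev2_add, ev2_mul, ev2_smul, ev1_mul, ev2_accL2 f M a b base r k j (by omega),
      ev2_cc2 M base r k j (by omega), ev1_lin]
    simp
    ring

lemma ev2_X (f : List (List ℤ)) (r : ℝ) :
    ev2 (X : ℝ⟦X⟧) (C r) f = ∑ j ∈ range f.length, C (ev1 r (f.getD j [])) * X ^ j := by
  have h1 : ∀ c : List ℤ, ev1 (C r : ℝ⟦X⟧) c = C (ev1 r c) := by
    intro c
    induction c with
    | nil => simp
    | cons x c ih => simp [ih]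
  induction f with
  | nil => simp
  | cons c cs ih =>
    rw [ev2_cons, ih, List.length_cons, sum_range_succ']
    simp only [List.getD_cons_succ, List.getD_cons_zero, pow_zero, mul_one, h1]
    rw [mul_sum, add_comm]
    congr 1
    apply sum_congr rfl
    intro j _
    rw [pow_succ]; ring

theorem inW_of_chk (f : List (List ℤ)) (M a b : ℤ) (hM : 0 < M) (h : chk f M a b = true)
    {r : ℝ} (h0 : 0 ≤ r) (h1 : 8 * r ≤ 1) :
    InW ((a + b * r) / M) (ev2 (X : ℝ⟦X⟧) (C r) f) := by
  unfold chk at h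
  rw [Bool.and_eq_true, Bool.and_eq_true, List.all_eq_true, decide_eq_true_eq] at h
  obtain ⟨⟨hfin, hbase⟩, htail⟩ := h
  have hM' : (0 : ℝ) < M := by exact_mod_cast hM
  rw [ev2_X]
  apply inW_of_levels
  intro n
  set F : ℕ → ℝ := fun j => ev1 r (f.getD j []) with hF
  set c : ℕ → ℝ := fun j => (n.descFactorial j : ℝ) * (M : ℝ) ^ j with hc
  have key := acc_eq F M (a + b * r) hM'.ne' n c (fun j => rfl)
  have hpos : (0 : ℝ) < n.factorial * M ^ n := by positivity
  rcases lt_or_ge n f.length with hn | hn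
  · have h2 := hfin n (List.mem_range.2 hn)
    rw [decide_eq_true_eq] at h2
    have h3 := ev1_nonneg h0 h1 h2
    unfold levL at h3
    rw [ev1_add, ev1_smul, ev1_accL] at h3
    have h4 := key n le_rfl
    rw [Nat.sub_self, pow_zero, one_mul] at h4
    have h5 : (n.factorial * (M : ℝ) ^ n) * ∑ i ∈ range (n + 1),
        (if i < f.length then F i else 0) * coeff (n - i) (ab (i - (a + b * r) / M)) =
        acc F M (a + b * r) n c n + (n.factorial * M ^ n) * F n := by
      rw [sum_range_succ, if_pos hn, mul_add, h4, Nat.sub_self, coeff_ab_zero, mul_one]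
      congr 2
      apply sum_congr rfl
      intro i hi
      rw [if_pos (lt_trans (mem_range.1 hi) hn)]
    have h6 : 0 ≤ (n.factorial * (M : ℝ) ^ n) * ∑ i ∈ range (n + 1),
        (if i < f.length then F i else 0) * coeff (n - i) (ab (i - (a + b * r) / M)) := by
      rw [h5]
      push_cast at h3
      exact h3
    exact nonneg_of_mul_nonneg_right h6 hpos
  · obtain ⟨k, rfl⟩ : ∃ k, n = f.length + k := ⟨n - f.length, by omega⟩
    have h2 := ev2_nonneg (k := (k : ℝ)) h0 h1 (Nat.cast_nonneg k) htail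
    rw [ev2_accL2 f M a b f.length r k f.length le_rfl] at h2
    have h3 := ev1_nonneg h0 h1 hbase
    rw [ev1_lin] at h3
    have h4 := key f.length (by omega)
    have h5 : 0 ≤ (M : ℝ) * ((f.length + k : ℕ) : ℝ) - (a + b * r) := by
      push_cast at h3 ⊢
      have : (0 : ℝ) ≤ M * k := by positivity
      linarith
    have h6 : (((f.length + k).factorial : ℝ) * (M : ℝ) ^ (f.length + k)) *
        ∑ i ∈ range (f.length + k + 1),
        (if i < f.length then F i else 0) * coeff (f.length + k - i) (ab (i - (a + b * r) / M)) =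
        ((f.length + k).factorial * (M : ℝ) ^ (f.length + k)) * ∑ i ∈ range f.length,
          F i * coeff (f.length + k - i) (ab (i - (a + b * r) / M)) := by
      congr 1
      rw [← sum_subset (range_mono (show f.length ≤ f.length + k + 1 by omega))]
      · apply sum_congr rfl
        intro i hi
        rw [if_pos (mem_range.1 hi)]
      · intro i _ hi
        rw [if_neg (by simpa using hi), zero_mul]
    have h7 : 0 ≤ (((f.length + k).factorial : ℝ) * (M : ℝ) ^ (f.length + k)) *
        ∑ i ∈ range (f.length + k + 1),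
        (if i < f.length then F i else 0) * coeff (f.length + k - i) (ab (i - (a + b * r) / M)) := by
      rw [h6, ← h4]
      apply mul_nonneg (pow_nonneg h5 _)
      exact h2
    exact nonneg_of_mul_nonneg_right h7 hpos

end Pool.Agent.Lib_helper1.SRCH
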