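import Pool.Agent.Lib_helper1.SRCH.HonestCheck

set_option autoImplicit false

namespace Pool.Agent.Lib_helper1.SRCH

/-- certificate for `l = 2` -/
def dat2 : Dat := ⟨1024, 904,
  [303, -15, 0], [320, -256, 128],
  [206, 2, 0], [-412, 632, -220],
  [344, 40, 0], [-688, 928, -240]⟩
def L1_2 : List (List ℤ) :=
  [[926], [926], [674], [-30], [0]]
def L2_2 : List (List ℤ) :=
  [[0], [1460], [200], [4], [0]]
def L3_2 : List (List ℤ) :=
  [[0], [2384], [608], [80], [0]]
def LA_2 : List (List ℤ) :=
  [[98, 88], [350, 1000], [566, -1304], [-54, 216], [0, 0]]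
def LB_2 : List (List ℤ) :=
  [[0, 0], [2608, -2752], [1056, 1536], [144, 1344], [32, -128], [0, 0]]
theorem eL1_2 : lift1 (gad 2 dat2.q1 dat2.r1) = L1_2 := by decide +kernel
theorem cL1_2 : chk L1_2 8 7 (0) = true := by decide +kernel
theorem eL2_2 : lift1 (gad 2 dat2.q2 dat2.r2) = L2_2 := by decide +kernel
theorem cL2_2 : chk L2_2 8 9 (0) = true := by decide +kernel
theorem eL3_2 : lift1 (gad 2 dat2.q3 dat2.r3) = L3_2 := by decide +kernel
theorem cL3_2 : chk L3_2 8 10 (0) = true := by decide +kernel
theorem eLA_2 : dat2.fA 2 = LA_2 := by decide +kernel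
theorem cLA_2 : chk LA_2 8 11 (-8) = true := by decide +kernel
theorem eLB_2 : dat2.fB 2 = LB_2 := by decide +kernel
theorem cLB_2 : chk LB_2 8 11 (8) = true := by decide +kernel
theorem ok2 : dat2.Ok 0 where
  hg := by decide +kernel
  hK := by decide +kernel
  c1 := chk_congr eL1_2 (by norm_num) (by norm_num [mM]) (by norm_num) cL1_2
  c2 := chk_congr eL2_2 (by norm_num) (by norm_num [mM]) (by norm_num) cL2_2
  c3 := chk_congr eL3_2 (by norm_num) (by norm_num [mM]) (by norm_num) cL3_2
  cA := chk_congr eLA_2 (by norm_num) (by norm_num [mM]) (by norm_num) cLA_2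
  cB := chk_congr eLB_2 (by norm_num) (by norm_num [mM]) (by norm_num) cLB_2

/-- certificate for `l = 3` -/
def dat3 : Dat := ⟨4096, 3760,
  [1453, -205, 0], [1024, -2816, 0],
  [440, 120, 0], [-880, 6368, 1936],
  [892, 148, 64], [-1784, 7152, 2568]⟩
def L1_3 : List (List ℤ) :=
  [[3930], [5492], [7488], [1676], [-410], [0]]
def L2_3 : List (List ℤ) :=
  [[0], [9248], [5296], [1600], [240], [0]]
def L3_3 : List (List ℤ) :=
  [[0], [12800], [8936], [3056], [680], [128]]
def LA_3 : List (List ℤ) :=
  [[166, 680], [1132, 4880], [2856, -3360], [1860, -4752], [-510, 2040], [-128, 512]]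
def LB_3 : List (List ℤ) :=
  [[0, 0], [9304, -10336], [7640, 1696], [3688, 6752], [904, 1760], [96, -384], [-128, 512]]
theorem eL1_3 : lift1 (gad 3 dat3.q1 dat3.r1) = L1_3 := by decide +kernel
theorem cL1_3 : chk L1_3 16 21 (0) = true := by decide +kernel
theorem eL2_3 : lift1 (gad 3 dat3.q2 dat3.r2) = L2_3 := by decide +kernel
theorem cL2_3 : chk L2_3 16 25 (0) = true := by decide +kernel
theorem eL3_3 : lift1 (gad 3 dat3.q3 dat3.r3) = L3_3 := by decide +kernel
theorem cL3_3 : chk L3_3 16 27 (0) = true := by decide +kernel
theorem eLA_3 : dat3.fA 3 = LA_3 := by decide +kernel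
theorem cLA_3 : chk LA_3 16 29 (-16) = true := by decide +kernel
theorem eLB_3 : dat3.fB 3 = LB_3 := by decide +kernel
theorem cLB_3 : chk LB_3 16 29 (16) = true := by decide +kernel
theorem ok3 : dat3.Ok 1 where
  hg := by decide +kernel
  hK := by decide +kernel
  c1 := chk_congr eL1_3 (by norm_num) (by norm_num [mM]) (by norm_num) cL1_3
  c2 := chk_congr eL2_3 (by norm_num) (by norm_num [mM]) (by norm_num) cL2_3
  c3 := chk_congr eL3_3 (by norm_num) (by norm_num [mM]) (by norm_num) cL3_3
  cA := chk_congr eLA_3 (by norm_num) (by norm_num [mM]) (by norm_num) cLA_3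
  cB := chk_congr eLB_3 (by norm_num) (by norm_num [mM]) (by norm_num) cLB_3

/-- certificate for `l = 4` -/
def dat4 : Dat := ⟨16384, 15392,
  [5891, -499, -384], [4096, -17152, -2816],
  [3384, -416, 320], [-6768, 16864, 7568],
  [6836, -996, 896], [-13672, 17616, 5784]⟩
def L1_4 : List (List ℤ) :=
  [[15878], [28978], [63116], [38068], [3182], [-4070], [-768]]
def L2_4 : List (List ℤ) :=
  [[0], [43104], [45488], [24640], [7280], [1728], [640]]
def L3_4 : List (List ℤ) :=
  [[0], [70312], [81640], [49904], [16456], [5176], [1792]]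
def LA_4 : List (List ℤ) :=
  [[506, 1944], [5062, 15464], [6364, 22160], [18460, -42096], [5850, -15464], [-2834, 11336],
  [-1664, 6656]]
def LB_4 : List (List ℤ) :=
  [[0, 0], [32560, -35008], [47032, -29408], [31288, 33568], [12296, 30176], [2808, 4640], [992,
  -3968], [0, 0]]
theorem eL1_4 : lift1 (gad 4 dat4.q1 dat4.r1) = L1_4 := by decide +kernel
theorem cL1_4 : chk L1_4 32 57 (0) = true := by decide +kernel
theorem eL2_4 : lift1 (gad 4 dat4.q2 dat4.r2) = L2_4 := by decide +kernel
theorem cL2_4 : chk L2_4 32 65 (0) = true := by decide +kernel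
theorem eL3_4 : lift1 (gad 4 dat4.q3 dat4.r3) = L3_4 := by decide +kernel
theorem cL3_4 : chk L3_4 32 69 (0) = true := by decide +kernel
theorem eLA_4 : dat4.fA 4 = LA_4 := by decide +kernel
theorem cLA_4 : chk LA_4 32 73 (-32) = true := by decide +kernel
theorem eLB_4 : dat4.fB 4 = LB_4 := by decide +kernel
theorem cLB_4 : chk LB_4 32 73 (32) = true := by decide +kernel
theorem ok4 : dat4.Ok 2 where
  hg := by decide +kernel
  hK := by decide +kernel
  c1 := chk_congr eL1_4 (by norm_num) (by norm_num [mM]) (by norm_num) cL1_4
  c2 := chk_congr eL2_4 (by norm_num) (by norm_num [mM]) (by norm_num) cL2_4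
  c3 := chk_congr eL3_4 (by norm_num) (by norm_num [mM]) (by norm_num) cL3_4
  cA := chk_congr eLA_4 (by norm_num) (by norm_num [mM]) (by norm_num) cLA_4
  cB := chk_congr eLB_4 (by norm_num) (by norm_num [mM]) (by norm_num) cLB_4

/-- certificate for `l = 5` -/
def dat5 : Dat := ⟨65536, 61952,
  [24513, -953, -2816], [15104, -95744, -87808],
  [19129, -6769, 2944], [-38258, 21988, -17010],
  [29386, -7090, 5568], [-58772, 76840, 58220]⟩
def L1_5 : List (List ℤ) :=
  [[64130], [147480], [387290], [443040], [169750], [-16824], [-30066], [-5632]]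
def L2_5 : List (List ℤ) :=
  [[0], [199740], [303768], [276640], [114790], [29448], [15902], [5888]]
def L3_5 : List (List ℤ) :=
  [[0], [356520], [586176], [501600], [263420], [99232], [41500], [11136]]
def LA_5 : List (List ℤ) :=
  [[1406, 8712], [17156, 89072], [33486, 152776], [89440, -71040], [107400, -286240], [19216,
  -48192], [-27336, 109344], [-11392, 45568]]
def LB_5 : List (List ℤ) :=
  [[0, 0], [109448, -36384], [220176, -20544], [441928, -620832], [85280, 519040], [44272,
  166976], [15008, -2688], [1776, -7104], [-384, 1536]]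
theorem eL1_5 : lift1 (gad 5 dat5.q1 dat5.r1) = L1_5 := by decide +kernel
theorem cL1_5 : chk L1_5 64 145 (0) = true := by decide +kernel
theorem eL2_5 : lift1 (gad 5 dat5.q2 dat5.r2) = L2_5 := by decide +kernel
theorem cL2_5 : chk L2_5 64 161 (0) = true := by decide +kernel
theorem eL3_5 : lift1 (gad 5 dat5.q3 dat5.r3) = L3_5 := by decide +kernel
theorem cL3_5 : chk L3_5 64 169 (0) = true := by decide +kernel
theorem eLA_5 : dat5.fA 5 = LA_5 := by decide +kernel
theorem cLA_5 : chk LA_5 64 177 (-64) = true := by decide +kernel
theorem eLB_5 : dat5.fB 5 = LB_5 := by decide +kernel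
theorem cLB_5 : chk LB_5 64 177 (64) = true := by decide +kernel
theorem ok5 : dat5.Ok 3 where
  hg := by decide +kernel
  hK := by decide +kernel
  c1 := chk_congr eL1_5 (by norm_num) (by norm_num [mM]) (by norm_num) cL1_5
  c2 := chk_congr eL2_5 (by norm_num) (by norm_num [mM]) (by norm_num) cL2_5
  c3 := chk_congr eL3_5 (by norm_num) (by norm_num [mM]) (by norm_num) cL3_5
  cA := chk_congr eLA_5 (by norm_num) (by norm_num [mM]) (by norm_num) cLA_5
  cB := chk_congr eLB_5 (by norm_num) (by norm_num [mM]) (by norm_num) cLB_5

/-- certificate for `l = 6` -/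
def dat6 : Dat := ⟨65536, 61568,
  [31781, -7181, -256, -768], [0, -186368, -323584, -99328],
  [8170, 494, 256, 512], [-16340, 102312, 156716, 221184],
  [19800, 2208, 1024, 1536], [-39600, 205152, 338256, 152576]⟩
def L1_6 : List (List ℤ) :=
  [[63562], [180642], [543162], [951874], [649294], [132662], [-61010], [-40474], [-9728],
  [-1536]]
def L2_6 : List (List ℤ) :=
  [[0], [201340], [408256], [566900], [278684], [138460], [50428], [19420], [6656], [1024]]
def L3_6 : List (List ℤ) :=
  [[0], [447168], [960800], [1026176], [731472], [390880], [158256], [62784], [20480], [3072]]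
def LA_6 : List (List ℤ) :=
  [[1974, 7976], [22818, 115064], [53862, 260712], [76490, 328920], [306630, -750360], [124430,
  -307256], [-16602, 98152], [-41730, 166920], [-17408, 69632], [-2560, 10240]]
def LB_6 : List (List ℤ) :=
  [[0, 0], [98720, 113024], [233696, 398464], [1012752, -1828928], [455784, 398944], [169448,
  655456], [60936, 200672], [19880, -16032], [-14480, 57920], [-6144, 24576], [1024, -4096]]
theorem eL1_6 : lift1 (gad 6 dat6.q1 dat6.r1) = L1_6 := by decide +kernel
theorem cL1_6 : chk L1_6 128 353 (0) = true := by decide +kernel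
theorem eL2_6 : lift1 (gad 6 dat6.q2 dat6.r2) = L2_6 := by decide +kernel
theorem cL2_6 : chk L2_6 128 385 (0) = true := by decide +kernel
theorem eL3_6 : lift1 (gad 6 dat6.q3 dat6.r3) = L3_6 := by decide +kernel
theorem cL3_6 : chk L3_6 128 401 (0) = true := by decide +kernel
theorem eLA_6 : dat6.fA 6 = LA_6 := by decide +kernel
theorem cLA_6 : chk LA_6 128 417 (-128) = true := by decide +kernel
theorem eLB_6 : dat6.fB 6 = LB_6 := by decide +kernel
theorem cLB_6 : chk LB_6 128 417 (128) = true := by decide +kernel
theorem ok6 : dat6.Ok 4 where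
  hg := by decide +kernel
  hK := by decide +kernel
  c1 := chk_congr eL1_6 (by norm_num) (by norm_num [mM]) (by norm_num) cL1_6
  c2 := chk_congr eL2_6 (by norm_num) (by norm_num [mM]) (by norm_num) cL2_6
  c3 := chk_congr eL3_6 (by norm_num) (by norm_num [mM]) (by norm_num) cL3_6
  cA := chk_congr eLA_6 (by norm_num) (by norm_num [mM]) (by norm_num) cLA_6
  cB := chk_congr eLB_6 (by norm_num) (by norm_num [mM]) (by norm_num) cLB_6

/-- certificate for `l = 7` -/
def dat7 : Dat := ⟨262144, 240896,
  [116735, -9423, -13312, -1024], [16384, -770048, -1830912, -704512],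
  [49336, -20408, 11264, 0], [-98672, 135904, 163472, 520192],
  [101220, -18468, 17408, 5120], [-202440, 785808, 1669432, 942080]⟩
def L1_7 : List (List ℤ) :=
  [[249854], [845396], [2913412], [6882756], [6938400], [3268412], [235004], [-529236], [-248222],
  [-40960], [-2048]]
def L2_7 : List (List ℤ) :=
  [[0], [785792], [1972400], [3274272], [2498048], [1432032], [622048], [286048], [116880],
  [22528], [0]]
def L3_7 : List (List ℤ) :=
  [[0], [2165952], [5696936], [7505776], [6595456], [4392080], [2218384], [1033424], [421816],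
  [106496], [10240]]
def LA_7 : List (List ℤ) :=
  [[12290, 35832], [135020, 734800], [427300, 1860464], [687276, 3200336], [2318176, -3323264],
  [1917524, -4100432], [594580, -1188432], [-265948, 1233776], [-290474, 1161896], [-88064,
  352256], [-8192, 32768]]
def LB_7 : List (List ℤ) :=
  [[0, 0], [368328, 1586400], [1205400, 4697504], [8359000, -14397792], [7032512, -4332288],
  [3334800, 5699008], [1131088, 4994752], [313744, 1464768], [60792, 96800], [-27232, 108928],
  [-18432, 73728], [-2048, 8192]]
theorem eL1_7 : lift1 (gad 7 dat7.q1 dat7.r1) = L1_7 := by decide +kernel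
theorem cL1_7 : chk L1_7 256 833 (0) = true := by decide +kernel
theorem eL2_7 : lift1 (gad 7 dat7.q2 dat7.r2) = L2_7 := by decide +kernel
theorem cL2_7 : chk L2_7 256 897 (0) = true := by decide +kernel
theorem eL3_7 : lift1 (gad 7 dat7.q3 dat7.r3) = L3_7 := by decide +kernel
theorem cL3_7 : chk L3_7 256 929 (0) = true := by decide +kernel
theorem eLA_7 : dat7.fA 7 = LA_7 := by decide +kernel
theorem cLA_7 : chk LA_7 256 961 (-256) = true := by decide +kernel
theorem eLB_7 : dat7.fB 7 = LB_7 := by decide +kernel
theorem cLB_7 : chk LB_7 256 961 (256) = true := by decide +kernel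
theorem ok7 : dat7.Ok 5 where
  hg := by decide +kernel
  hK := by decide +kernel
  c1 := chk_congr eL1_7 (by norm_num) (by norm_num [mM]) (by norm_num) cL1_7
  c2 := chk_congr eL2_7 (by norm_num) (by norm_num [mM]) (by norm_num) cL2_7
  c3 := chk_congr eL3_7 (by norm_num) (by norm_num [mM]) (by norm_num) cL3_7
  cA := chk_congr eLA_7 (by norm_num) (by norm_num [mM]) (by norm_num) cLA_7
  cB := chk_congr eLB_7 (by norm_num) (by norm_num [mM]) (by norm_num) cLB_7

/-- certificate for `l = 8` -/
def dat8 : Dat := ⟨1048576, 931328,
  [433297, 51807, -116736, 10240], [147456, -3178496, -9789440, -5128192],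
  [187192, -113000, 65536, -6144], [-374384, 85216, -177776, 1277952],
  [469532, -193036, 133120, 12288], [-939064, 2959472, 8113096, 5586944]⟩
def L1_8 : List (List ℤ) :=
  [[1014050], [3857870], [15070632], [44454968], [60090588], [43281252], [14870856], [-1806888],
  [-3694830], [-1190722], [-69632], [20480]]
def L2_8 : List (List ℤ) :=
  [[0], [2854288], [8628048], [16951744], [17122592], [12141472], [6313664], [3146944], [1548272],
  [478512], [32768], [-12288]]
def L3_8 : List (List ℤ) :=
  [[0], [10085912], [31584552], [49519008], [51765776], [41160112], [24686816], [13332256],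
  [6681464], [2431976], [462848], [24576]]
def LA_8 : List (List ℤ) :=
  [[34526, 330888], [1027722, 3861976], [3437024, 12515456], [6514792, 26467936], [17821684,
  -5627856], [20857676, -30903600], [12848920, -25132128], [2104904, -915744], [-2437754,
  10689000], [-1719766, 6879064], [-425984, 1703936], [-32768, 131072]]
def LB_8 : List (List ℤ) :=
  [[0, 0], [1920528, 11077568], [7759224, 36497952], [60737848, -85370080], [77697424, -74417728],
  [54345712, 18989120], [27065696, 49318528], [7906720, 35907968], [2209208, 8046880], [942664,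
  -1894688], [-80192, 320768], [-299008, 1196032], [-81920, 327680]]
theorem eL1_8 : lift1 (gad 8 dat8.q1 dat8.r1) = L1_8 := by decide +kernel
theorem cL1_8 : chk L1_8 512 1921 (0) = true := by decide +kernel
theorem eL2_8 : lift1 (gad 8 dat8.q2 dat8.r2) = L2_8 := by decide +kernel
theorem cL2_8 : chk L2_8 512 2049 (0) = true := by decide +kernel
theorem eL3_8 : lift1 (gad 8 dat8.q3 dat8.r3) = L3_8 := by decide +kernel
theorem cL3_8 : chk L3_8 512 2113 (0) = true := by decide +kernel
theorem eLA_8 : dat8.fA 8 = LA_8 := by decide +kernel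
theorem cLA_8 : chk LA_8 512 2177 (-512) = true := by decide +kernel
theorem eLB_8 : dat8.fB 8 = LB_8 := by decide +kernel
theorem cLB_8 : chk LB_8 512 2177 (512) = true := by decide +kernel
theorem ok8 : dat8.Ok 6 where
  hg := by decide +kernel
  hK := by decide +kernel
  c1 := chk_congr eL1_8 (by norm_num) (by norm_num [mM]) (by norm_num) cL1_8
  c2 := chk_congr eL2_8 (by norm_num) (by norm_num [mM]) (by norm_num) cL2_8
  c3 := chk_congr eL3_8 (by norm_num) (by norm_num [mM]) (by norm_num) cL3_8
  cA := chk_congr eLA_8 (by norm_num) (by norm_num [mM]) (by norm_num) cLA_8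
  cB := chk_congr eLB_8 (by norm_num) (by norm_num [mM]) (by norm_num) cLB_8

/-- certificate for `l = 9` -/
def dat9 : Dat := ⟨524288, 449536,
  [193065, 93375, -112640, 20480], [114688, -1482752, -5922816, -3956736],
  [78628, -61596, 38912, -6144], [-157256, -136048, -566856, 196608],
  [263616, -164856, 112640, -4096], [-527232, 1431296, 4977792, 4136960]⟩
def L1_9 : List (List ℤ) :=
  [[500818], [2179168], [9433334], [33214624], [56597940], [54733920], [31020780], [6363360],
  [-3564390], [-2602560], [-366210], [143360], [40960]]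
def L2_9 : List (List ℤ) :=
  [[0], [1156064], [4063456], [9659328], [12157200], [10386912], [6460944], [3570624], [1969320],
  [818000], [134856], [-32768], [-12288]]
def L3_9 : List (List ℤ) :=
  [[0], [5846672], [21216016], [38574144], [46771776], [43516128], [30440928], [18637632],
  [10766784], [4981776], [1402896], [151552], [-8192]]
def LA_9 : List (List ℤ) :=
  [[23470, 205128], [779568, 2562880], [3035930, 9384856], [6632288, 23704192], [16593660,
  8975376], [23483616, -18584448], [20157732, -30397584], [9177120, -15179904], [265470,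
  4320264], [-2148640, 9192576], [-1171542, 4686168], [-262144, 1048576], [-20480, 81920]]
def LB_9 : List (List ℤ) :=
  [[0, 0], [1213256, 8303328], [5721408, 30935808], [49540888, -54639712], [85020896, -88916864],
  [79682160, -17328576], [52931616, 39440256], [21158160, 58891200], [6900528, 26219328],
  [3942328, -3808992], [1411216, -4448832], [-596888, 2387552], [-610304, 2441216], [-131072,
  524288]]
theorem eL1_9 : lift1 (gad 9 dat9.q1 dat9.r1) = L1_9 := by decide +kernel
theorem cL1_9 : chk L1_9 1024 4353 (0) = true := by decide +kernel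
theorem eL2_9 : lift1 (gad 9 dat9.q2 dat9.r2) = L2_9 := by decide +kernel
theorem cL2_9 : chk L2_9 1024 4609 (0) = true := by decide +kernel
theorem eL3_9 : lift1 (gad 9 dat9.q3 dat9.r3) = L3_9 := by decide +kernel
theorem cL3_9 : chk L3_9 1024 4737 (0) = true := by decide +kernel
theorem eLA_9 : dat9.fA 9 = LA_9 := by decide +kernel
theorem cLA_9 : chk LA_9 1024 4865 (-1024) = true := by decide +kernel
theorem eLB_9 : dat9.fB 9 = LB_9 := by decide +kernel
theorem cLB_9 : chk LB_9 1024 4865 (1024) = true := by decide +kernel
theorem ok9 : dat9.Ok 7 where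
  hg := by decide +kernel
  hK := by decide +kernel
  c1 := chk_congr eL1_9 (by norm_num) (by norm_num [mM]) (by norm_num) cL1_9
  c2 := chk_congr eL2_9 (by norm_num) (by norm_num [mM]) (by norm_num) cL2_9
  c3 := chk_congr eL3_9 (by norm_num) (by norm_num [mM]) (by norm_num) cL3_9
  cA := chk_congr eLA_9 (by norm_num) (by norm_num [mM]) (by norm_num) cLA_9
  cB := chk_congr eLB_9 (by norm_num) (by norm_num [mM]) (by norm_num) cLB_9

/-- certificate for `l = 10` -/
def dat10 : Dat := ⟨1048576, 870400,
  [344163, 326605, -352256, 81920], [294912, -2621440, -13762560, -11272192],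
  [107168, -80368, 49152, -8192], [-214336, -685440, -2540864, -1114112],
  [573220, -455108, 319488, -32768], [-1146440, 2882704, 12452280, 12353536]⟩
def L1_10 : List (List ℤ) :=
  [[983238], [4915030], [23039698], [93840098], [192869020], [233463612], [180870660], [76642596],
  [2700030], [-13857330], [-4821814], [980890], [933888], [163840]]
def L2_10 : List (List ℤ) :=
  [[0], [1297184], [5595200], [18339744], [29982080], [31317312], [23182848], [13297728],
  [6871872], [3266080], [1064576], [85024], [-65536], [-16384]]
def L3_10 : List (List ℤ) :=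
  [[0], [13436888], [55578896], [115290840], [159625040], [171485520], [137698608], [93686832],
  [60033768], [33419240], [12933880], [2530424], [-16384], [-65536]]
def LA_10 : List (List ℤ) :=
  [[65338, 451352], [2370994, 5482808], [10158046, 23511176], [24187558, 74298728], [57925780,
  67632560], [92215860, -9660624], [98649804, -95263536], [68031084, -101075376], [24766170,
  -34921320], [-1856470, 21679960], [-7079490, 29743368], [-3596338, 14385352], [-851968,
  3407872], [-81920, 327680]]
def LB_10 : List (List ℤ) :=
  [[0, 0], [3493664, 20235136], [17068256, 88521856], [150580064, -131935616], [317950320,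
  -331032000], [369611984, -161370944], [310332336, 75747648], [168917424, 265099584],
  [71362440, 184934880], [39319208, -481952], [20684472, -51378912], [657208, 221984],
  [-6443808, 25775232], [-3358720, 13434880], [-557056, 2228224]]
theorem eL1_10 : lift1 (gad 10 dat10.q1 dat10.r1) = L1_10 := by decide +kernel
theorem cL1_10 : chk L1_10 2048 9729 (0) = true := by decide +kernel
theorem eL2_10 : lift1 (gad 10 dat10.q2 dat10.r2) = L2_10 := by decide +kernel
theorem cL2_10 : chk L2_10 2048 10241 (0) = true := by decide +kernel
theorem eL3_10 : lift1 (gad 10 dat10.q3 dat10.r3) = L3_10 := by decide +kernel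
theorem cL3_10 : chk L3_10 2048 10497 (0) = true := by decide +kernel
theorem eLA_10 : dat10.fA 10 = LA_10 := by decide +kernel
theorem cLA_10 : chk LA_10 2048 10753 (-2048) = true := by decide +kernel
theorem eLB_10 : dat10.fB 10 = LB_10 := by decide +kernel
theorem cLB_10 : chk LB_10 2048 10753 (2048) = true := by decide +kernel
theorem ok10 : dat10.Ok 8 where
  hg := by decide +kernel
  hK := by decide +kernel
  c1 := chk_congr eL1_10 (by norm_num) (by norm_num [mM]) (by norm_num) cL1_10
  c2 := chk_congr eL2_10 (by norm_num) (by norm_num [mM]) (by norm_num) cL2_10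
  c3 := chk_congr eL3_10 (by norm_num) (by norm_num [mM]) (by norm_num) cL3_10
  cA := chk_congr eLA_10 (by norm_num) (by norm_num [mM]) (by norm_num) cLA_10
  cB := chk_congr eLB_10 (by norm_num) (by norm_num [mM]) (by norm_num) cLB_10

/-- certificate for `l = 11` -/
def dat11 : Dat := ⟨2097152, 1683456,
  [618802, 916446, -958464, 249856], [737280, -4685824, -30851072, -29229056],
  [120639, -67203, 32768, -4096], [-241278, -1909508, -8826494, -6569984],
  [1217020, -1161256, 847872, -126976], [-2434040, 6244336, 32201736, 37568512]⟩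
def L1_11 : List (List ℤ) :=
  [[1974884], [10760712], [55462032], [255198168], [610902292], [887818448], [868435392],
  [534489648], [154305228], [-31223896], [-36965456], [-1579144], [8230844], [3579904],
  [499712]]
def L2_11 : List (List ℤ) :=
  [[0], [610144], [3030866], [26561260], [60959118], [77479336], [69650064], [45100440],
  [21949818], [8935476], [3371808], [1015612], [135930], [-24576], [-8192]]
def L3_11 : List (List ℤ) :=
  [[0], [30696264], [142222048], [329846184], [510491168], [623927920], [569219376], [429862224],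
  [301295544], [192927416], [95029880], [28250248], [2363312], [-1097728], [-253952]]
def LA_11 : List (List ℤ) :=
  [[122268, 1165712], [6167376, 13390528], [29971774, 62139144], [80454548, 224260528],
  [201767742, 285086472], [348542744, 134849440], [430463616, -192834048], [374668008,
  -406514592], [214509570, -311959560], [60047724, -58164656], [-15298888, 97600800],
  [-23492412, 97279216], [-10730086, 42920344], [-2457600, 9830400], [-237568, 950272]]
def LB_11 : List (List ℤ) :=
  [[0, 0], [7843288, 54675616], [45960852, 253019568], [432700780, -274593200], [1095207844,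
  -1104359056], [1541016532, -921710416], [1573955152, -179738944], [1081728912, 915440064],
  [546552996, 1090260336], [286424468, 310512048], [175912088, -266785376], [59969656,
  -160448992], [-22938084, 98371472], [-32216212, 128864848], [-12394496, 49577984], [-1728512,
  6914048]]
theorem eL1_11 : lift1 (gad 11 dat11.q1 dat11.r1) = L1_11 := by decide +kernel
theorem cL1_11 : chk L1_11 4096 21505 (0) = true := by decide +kernel
theorem eL2_11 : lift1 (gad 11 dat11.q2 dat11.r2) = L2_11 := by decide +kernel
theorem cL2_11 : chk L2_11 4096 22529 (0) = true := by decide +kernel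
theorem eL3_11 : lift1 (gad 11 dat11.q3 dat11.r3) = L3_11 := by decide +kernel
theorem cL3_11 : chk L3_11 4096 23041 (0) = true := by decide +kernel
theorem eLA_11 : dat11.fA 11 = LA_11 := by decide +kernel
theorem cLA_11 : chk LA_11 4096 23553 (-4096) = true := by decide +kernel
theorem eLB_11 : dat11.fB 11 = LB_11 := by decide +kernel
theorem cLB_11 : chk LB_11 4096 23553 (4096) = true := by decide +kernel
theorem ok11 : dat11.Ok 9 where
  hg := by decide +kernel
  hK := by decide +kernel
  c1 := chk_congr eL1_11 (by norm_num) (by norm_num [mM]) (by norm_num) cL1_11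
  c2 := chk_congr eL2_11 (by norm_num) (by norm_num [mM]) (by norm_num) cL2_11
  c3 := chk_congr eL3_11 (by norm_num) (by norm_num [mM]) (by norm_num) cL3_11
  cA := chk_congr eLA_11 (by norm_num) (by norm_num [mM]) (by norm_num) cLA_11
  cB := chk_congr eLB_11 (by norm_num) (by norm_num [mM]) (by norm_num) cLB_11

end Pool.Agent.Lib_helper1.SRCH
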