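import Pool.Agent.Lib_helper1.SRCH.HonestCheck

set_option autoImplicit false

namespace Pool.Agent.Lib_helper1.SRCH

/-- certificate for `l = 12` -/
def dat12 : Dat := ⟨4194304, 3153920,
  [1172841, 2196503, -2277376, 622592], [1638400, -9109504, -71041024, -75628544],
  [190790, -37566, -16384, 16384], [-381580, -4283112, -22205068, -20381696],
  [2126928, -2182296, 1605632, -262144], [-4253856, 13029696, 74651488, 101711872]⟩
def L1_12 : List (List ℤ) :=
  [[3984082], [23431686], [131935308], [676948052], [1841902486], [3112454818], [3666009160],
  [2925920184], [1417968222], [233774442], [-147140180], [-67592780], [28388602], [31918126],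
  [10387456], [1245184]]
def L2_12 : List (List ℤ) :=
  [[0], [220716], [2044860], [58246744], [170583588], [259974748], [284064176], [223057296],
  [125052180], [51082636], [18387336], [8631448], [4526268], [1694340], [360448], [32768]]
def L3_12 : List (List ℤ) :=
  [[0], [59711376], [306242144], [787508000], [1351100448], [1880455984], [1948038400],
  [1619969472], [1200873696], [834254256], [494883840], [209938720], [48478816], [-432432],
  [-3080192], [-524288]]
def LA_12 : List (List ℤ) :=
  [[210222, 3320648], [21493822, 18063112], [113425816, 95619488], [322790964, 539911984],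
  [788774438, 964822888], [1390891986, 1028305080], [1852962056, 278670304], [1874830584,
  -907449312], [1408466862, -1513946808], [726382426, -1074453864], [187517132, -200745776],
  [-50314092, 301133232], [-73005078, 300343384], [-33180034, 132720136], [-7667712, 30670848],
  [-753664, 3014656]]
def LB_12 : List (List ℤ) :=
  [[0, 0], [39369136, 75569472], [231927144, 370690656], [1481193192, -1163975584], [3989447224,
  -4055795936], [6371081976, -4060740576], [7527234352, -1544154304], [6303476256, 3350878080],
  [3969786744, 5544440352], [2267930456, 2830271136], [1405340288, -860563968], [718446000,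
  -1575384768], [106784328, -210737440], [-156399928, 642245856], [-122109072, 488436288],
  [-37683200, 150732800], [-4521984, 18087936]]
theorem eL1_12 : lift1 (gad 12 dat12.q1 dat12.r1) = L1_12 := by decide +kernel
theorem cL1_12 : chk L1_12 8192 47105 (0) = true := by decide +kernel
theorem eL2_12 : lift1 (gad 12 dat12.q2 dat12.r2) = L2_12 := by decide +kernel
theorem cL2_12 : chk L2_12 8192 49153 (0) = true := by decide +kernel
theorem eL3_12 : lift1 (gad 12 dat12.q3 dat12.r3) = L3_12 := by decide +kernel
theorem cL3_12 : chk L3_12 8192 50177 (0) = true := by decide +kernel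
theorem eLA_12 : dat12.fA 12 = LA_12 := by decide +kernel
theorem cLA_12 : chk LA_12 8192 51201 (-8192) = true := by decide +kernel
theorem eLB_12 : dat12.fB 12 = LB_12 := by decide +kernel
theorem cLB_12 : chk LB_12 8192 51201 (8192) = true := by decide +kernel
theorem ok12 : dat12.Ok 10 where
  hg := by decide +kernel
  hK := by decide +kernel
  c1 := chk_congr eL1_12 (by norm_num) (by norm_num [mM]) (by norm_num) cL1_12
  c2 := chk_congr eL2_12 (by norm_num) (by norm_num [mM]) (by norm_num) cL2_12
  c3 := chk_congr eL3_12 (by norm_num) (by norm_num [mM]) (by norm_num) cL3_12
  cA := chk_congr eLA_12 (by norm_num) (by norm_num [mM]) (by norm_num) cLA_12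
  cB := chk_congr eLB_12 (by norm_num) (by norm_num [mM]) (by norm_num) cLB_12

/-- certificate for `l = 13` -/
def dat13 : Dat := ⟨2097152, 1474560,
  [585565, 1255971, -1294336, 360448], [786432, -5242880, -45678592, -56819712],
  [16493, -89, 0, 0], [-32986, -65100, -98522, -131072],
  [905200, -877436, 606208, -81920], [-1810400, 4669376, 29515808, 49610752]⟩
def L1_13 : List (List ℤ) :=
  [[1957562], [12493752], [75736122], [441123104], [1363228594], [2619152536], [3597804210],
  [3503971328], [2303368782], [865123688], [36418382], [-113343776], [-13763386], [38086216],
  [25089094], [6782976], [720896]]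
def L2_13 : List (List ℤ) :=
  [[0], [363540], [2472072], [9289040], [23534082], [42325712], [56374890], [56298528],
  [42147534], [23355904], [9306726], [2522000], [414934], [30672], [-178], [0], [0]]
def L3_13 : List (List ℤ) :=
  [[0], [26449704], [149126088], [446102704], [884981136], [1409222776], [1668145336],
  [1538519840], [1188268224], [835272152], [542270872], [295333168], [116260560], [26707272],
  [1227016], [-917504], [-163840]]
def LA_13 : List (List ℤ) :=
  [[139590, 1932008], [17316108, -2024496], [99821430, -10788312], [303056096, 212266112],
  [727183548, 652492048], [1327368224, 1100734336], [1875101228, 1046538064], [2098635968,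
  152399104], [1864284708, -1046931600], [1275175616, -1539476224], [611574964, -1021809360],
  [142644320, -182079872], [-48386156, 258294192], [-60629856, 247500160], [-26315932,
  105263728], [-5865472, 23461888], [-557056, 2228224]]
def LB_13 : List (List ℤ) :=
  [[0, 0], [37922680, -2268640], [233889128, -29062560], [1239552400, -1332233792], [3465811836,
  -3891813872], [6096709788, -4443972208], [8103319692, -2498978352], [7889434124, 2630035408],
  [5874887876, 6414748912], [3755426532, 4921160816], [2409091828, 335066160], [1455851956,
  -2197432016], [566749716, -1360504912], [-24779532, 238578736], [-174405564, 707583728],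
  [-98830524, 395322096], [-25722880, 102891520], [-2719744, 10878976]]
theorem eL1_13 : lift1 (gad 13 dat13.q1 dat13.r1) = L1_13 := by decide +kernel
theorem cL1_13 : chk L1_13 16384 102401 (0) = true := by decide +kernel
theorem eL2_13 : lift1 (gad 13 dat13.q2 dat13.r2) = L2_13 := by decide +kernel
theorem cL2_13 : chk L2_13 16384 106497 (0) = true := by decide +kernel
theorem eL3_13 : lift1 (gad 13 dat13.q3 dat13.r3) = L3_13 := by decide +kernel
theorem cL3_13 : chk L3_13 16384 108545 (0) = true := by decide +kernel
theorem eLA_13 : dat13.fA 13 = LA_13 := by decide +kernel
theorem cLA_13 : chk LA_13 16384 110593 (-16384) = true := by decide +kernel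
theorem eLB_13 : dat13.fB 13 = LB_13 := by decide +kernel
theorem cLB_13 : chk LB_13 16384 110593 (16384) = true := by decide +kernel
theorem ok13 : dat13.Ok 11 where
  hg := by decide +kernel
  hK := by decide +kernel
  c1 := chk_congr eL1_13 (by norm_num) (by norm_num [mM]) (by norm_num) cL1_13
  c2 := chk_congr eL2_13 (by norm_num) (by norm_num [mM]) (by norm_num) cL2_13
  c3 := chk_congr eL3_13 (by norm_num) (by norm_num [mM]) (by norm_num) cL3_13
  cA := chk_congr eLA_13 (by norm_num) (by norm_num [mM]) (by norm_num) cLA_13
  cB := chk_congr eLB_13 (by norm_num) (by norm_num [mM]) (by norm_num) cLB_13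

/-- certificate for `l = 14` -/
def dat14 : Dat := ⟨16777216, 10911744,
  [4683939, 11445893, -12255232, 3670016], [6291456, -45350912, -446169088, -849870848],
  [131420, -292, 0, 0], [-262840, -522896, -524984, -524288],
  [5792332, -6452324, 4915200, -983040], [-11584664, 2984240, 52640616, 107741184]⟩
def L1_14 : List (List ℤ) :=
  [[15659334], [108691166], [702282350], [4307382806], [15582164206], [33415303558],
  [52097890390], [59172013758], [47786167858], [25420728762], [6792667882], [-703247454],
  [-655143398], [639865954], [771172306], [347688202], [78249984], [7340032]]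
def L2_14 : List (List ℤ) :=
  [[0], [3156280], [23385280], [95096328], [262890264], [525621096], [788139352], [900313128],
  [787304232], [524451928], [261933672], [95089176], [23705864], [3626616], [254664], [-584],
  [0], [0]]
def L3_14 : List (List ℤ) :=
  [[0], [152264888], [936010368], [3285895432], [7765998072], [13674297000], [18078217976],
  [18718323624], [16084593096], [12273633944], [8534248008], [5075587608], [2261050792],
  [598081848], [9832872], [-54192328], [-17694720], [-1966080]]
def LA_14 : List (List ℤ) :=
  [[1117882, 18990360], [222426930, -209312968], [1391775314, -1297037640], [4525438682,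
  -1021500264], [9976933890, 7062964216], [19560751210, 15698394712], [29799711578,
  21713253016], [36368160114, 15569758776], [36105894110, -3511477112], [28957158230,
  -21887233368], [17999136870, -25025847704], [7746383918, -13905281208], [1423840054,
  -1425296600], [-771812370, 3744182344], [-747705410, 3037745416], [-293495290, 1173981160],
  [-60555264, 242221056], [-5373952, 21495808]]
def LB_14 : List (List ℤ) :=
  [[0, 0], [547997264, -690428224], [3598286944, -4539154816], [16694743840, -24078339200],
  [47074205304, -60194912736], [88833349976, -73509201248], [131682178264, -57021715296],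
  [145843884472, 20533459232], [124810147176, 104668408416], [89206185640, 112882255200],
  [60395854376, 40240781152], [39957871304, -31729576736], [21251192872, -42304135328],
  [5557043016, -12374179104], [-2188173880, 10160408800], [-2865344408, 11555225184],
  [-1283475152, 5133900608], [-289406976, 1157627904], [-27394048, 109576192]]
theorem eL1_14 : lift1 (gad 14 dat14.q1 dat14.r1) = L1_14 := by decide +kernel
theorem cL1_14 : chk L1_14 32768 221185 (0) = true := by decide +kernel
theorem eL2_14 : lift1 (gad 14 dat14.q2 dat14.r2) = L2_14 := by decide +kernel
theorem cL2_14 : chk L2_14 32768 229377 (0) = true := by decide +kernel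
theorem eL3_14 : lift1 (gad 14 dat14.q3 dat14.r3) = L3_14 := by decide +kernel
theorem cL3_14 : chk L3_14 32768 233473 (0) = true := by decide +kernel
theorem eLA_14 : dat14.fA 14 = LA_14 := by decide +kernel
theorem cLA_14 : chk LA_14 32768 237569 (-32768) = true := by decide +kernel
theorem eLB_14 : dat14.fB 14 = LB_14 := by decide +kernel
theorem cLB_14 : chk LB_14 32768 237569 (32768) = true := by decide +kernel
theorem ok14 : dat14.Ok 12 where
  hg := by decide +kernel
  hK := by decide +kernel
  c1 := chk_congr eL1_14 (by norm_num) (by norm_num [mM]) (by norm_num) cL1_14
  c2 := chk_congr eL2_14 (by norm_num) (by norm_num [mM]) (by norm_num) cL2_14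
  c3 := chk_congr eL3_14 (by norm_num) (by norm_num [mM]) (by norm_num) cL3_14
  cA := chk_congr eLA_14 (by norm_num) (by norm_num [mM]) (by norm_num) cLA_14
  cB := chk_congr eLB_14 (by norm_num) (by norm_num [mM]) (by norm_num) cLB_14

end Pool.Agent.Lib_helper1.SRCH
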