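import Pool.Agent.Lib_helper1.SRCH.Check

set_option autoImplicit false

/-! # Certificates for a full star with `l = k + 2` honest leaves below a vertex of degree two -/

namespace Pool.Agent.Lib_helper1.SRCH

open PowerSeries Finset
open Pool.Agent.Lib_helper36.SRC

def pow1 (p : List ℤ) : ℕ → List ℤ
  | 0 => [1]
  | n + 1 => mul1 p (pow1 p n)

def lift1 : List ℤ → List (List ℤ)
  | [] => []
  | c :: cs => [c] :: lift1 cs

section
variable {R : Type*} [CommRing R]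

lemma ev1_pow (r : R) (p : List ℤ) : ∀ n, ev1 r (pow1 p n) = ev1 r p ^ n
  | 0 => by simp [pow1]
  | n + 1 => by rw [pow1, ev1_mul, ev1_pow r p n, pow_succ]; ring

lemma ev2_lift (x r : R) : ∀ p : List ℤ, ev2 x r (lift1 p) = ev1 x p
  | [] => by simp [lift1]
  | c :: cs => by simp [lift1, ev2_lift x r cs]

end

/-- `2^(l+1) K` times the gadget coefficient `q κ^l + τ r` -/
def gad (l : ℕ) (q r : List ℤ) : List ℤ := add1 (mul1 (smul1 2 (pow1 [1, 1] l)) q) r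

def datD (l : ℕ) : List ℤ := add1 (smul1 2 (pow1 [1, 1] l)) [-1, 1]
def datS (l : ℕ) : List ℤ := add1 (pow1 [1, 1] (l + 1)) [-1, 1]

/-- the data of a certificate: `K`, `g`, and `(q, r)` for the leaves `1/2`, `1/4`, `1/8` -/
structure Dat where
  K : ℤ
  g : ℤ
  q1 : List ℤ
  r1 : List ℤ
  q2 : List ℤ
  r2 : List ℤ
  q3 : List ℤ
  r3 : List ℤ

def Dat.fA (D : Dat) (l : ℕ) : List (List ℤ) :=
  add2 (smul2 [D.K, -4 * D.g] (lift1 (datD l)))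
    (smul2 [-1, 4] (lift1 (add1 (gad l D.q1 D.r1) (add1 (gad l D.q2 D.r2) (gad l D.q3 D.r3)))))

def Dat.fB (D : Dat) (l : ℕ) : List (List ℤ) :=
  add2 (smul2 [4 * D.K, -16 * D.g] (lift1 (datS l)))
    (smul2 [-1, 4] (lift1 (add1 (mul1 [0, 4] (gad l D.q1 D.r1))
      (add1 (mul1 [2, 2] (gad l D.q2 D.r2)) (mul1 [3, 1] (gad l D.q3 D.r3))))))

def mM (k : ℕ) : ℤ := (k + 2) * (4 * 2 ^ k) + 1 + 2 * 2 ^ k

/-- everything that is checked by the kernel -/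
structure Dat.Ok (D : Dat) (k : ℕ) : Prop where
  hg : D.g ≤ D.K
  hK : 0 < D.K
  c1 : chk (lift1 (gad (k + 2) D.q1 D.r1)) (8 * 2 ^ k) (mM k - 4 * 2 ^ k) 0 = true
  c2 : chk (lift1 (gad (k + 2) D.q2 D.r2)) (8 * 2 ^ k) (mM k - 2 * 2 ^ k) 0 = true
  c3 : chk (lift1 (gad (k + 2) D.q3 D.r3)) (8 * 2 ^ k) (mM k - 2 ^ k) 0 = true
  cA : chk (D.fA (k + 2)) (8 * 2 ^ k) (mM k) (-(8 * 2 ^ k)) = true
  cB : chk (D.fB (k + 2)) (8 * 2 ^ k) (mM k) (8 * 2 ^ k) = true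

lemma chk_congr {f g : List (List ℤ)} {M a b M' a' b' : ℤ} (h : f = g) (hM : M = M') (ha : a = a')
    (hb : b = b') (hc : chk g M' a' b' = true) : chk f M a b = true := by
  rw [h, hM, ha, hb]; exact hc

/-- the power series `κ^l`, `κ = 1 + (x - 1)/2` -/
noncomputable def kl (l : ℕ) : ℝ⟦X⟧ := (1 + C (1 / 2) * (X - 1)) ^ l

lemma two_kl (l : ℕ) : C (2 ^ l) * kl l = (1 + X) ^ l := by
  unfold kl
  rw [map_pow, ← mul_pow]
  congr 1
  have h : (C (2 : ℝ) : ℝ⟦X⟧) * C (1 / 2) = 1 := by rw [← map_mul]; norm_num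
  have h2 : (C (2 : ℝ) : ℝ⟦X⟧) = 2 := map_ofNat C 2
  rw [mul_add, ← mul_assoc, h, h2]
  ring

/-- `B_U` and `A_U` for `U` = a vertex of degree two above a full star with `l` honest leaves -/
noncomputable def DD (l : ℕ) : ℝ⟦X⟧ := kl l + C ((1 / 2) ^ (l + 1)) * (X - 1)
noncomputable def SS (l : ℕ) : ℝ⟦X⟧ := kl (l + 1) + C ((1 / 2) ^ (l + 1)) * (X - 1)

lemma C_pow_mul (l : ℕ) : (C ((2 : ℝ) ^ l) : ℝ⟦X⟧) * C ((1 / 2) ^ l) = 1 := by
  rw [← map_mul, ← mul_pow]; norm_num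

lemma datD_eq (l : ℕ) : ev1 (X : ℝ⟦X⟧) (datD l) = C (2 ^ (l + 1)) * DD l := by
  unfold datD DD
  rw [ev1_add, ev1_smul, ev1_pow, mul_add, ← mul_assoc, C_pow_mul, pow_succ, map_mul]
  have h2 : (C (2 : ℝ) : ℝ⟦X⟧) = 2 := map_ofNat C 2
  have := two_kl l
  rw [mul_comm (C ((2 : ℝ) ^ l)), mul_assoc, this, h2]
  simp; ring

lemma datS_eq (l : ℕ) : ev1 (X : ℝ⟦X⟧) (datS l) = C (2 ^ (l + 1)) * SS l := by
  unfold datS SS
  rw [ev1_add, ev1_pow, mul_add, ← mul_assoc, C_pow_mul, two_kl]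
  simp; ring

/-- the frame `m = l/2 + 2^-(l+1) + 1/4`, `l = k + 2` -/
lemma mM_eq (k : ℕ) : ((mM k : ℤ) : ℝ) / (8 * 2 ^ k) = ((k : ℝ) + 2) / 2 + (1 / 2) ^ (k + 3) + 1 / 4 := by
  unfold mM
  have h : ((1 : ℝ) / 2) ^ (k + 3) = 1 / (8 * 2 ^ k) := by
    rw [div_pow, one_pow, pow_add]; norm_num; ring
  rw [h]
  push_cast
  field_simp
  ring

end Pool.Agent.Lib_helper1.SRCH
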