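import Pool.Agent.Lib_helper1.SRCH.Cert
import Pool.Agent.Lib_helper1.SRCH.DataA
import Pool.Agent.Lib_helper1.SRCH.DataB
import Pool.Agent.Lib_helper1.SRCH.DataC
import Pool.Agent.Lib_helper1.SRCH.DataD
import Pool.Agent.Lib_helper1.SRCH.DataE
import Pool.Agent.Lib_helper1.SRCH.DataF

set_option autoImplicit false

/-! # Case (IIIA), `m = 1`, `h_u = 0`, honest star with `2 ≤ l ≤ 20` leaves -/

namespace Pool.Agent.Lib_helper1.SRCH

open PowerSeries
open Pool.Agent.Lib_helper36.SRC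
open Pool.Agent.Lib_helper55.M1

/-- certificates for all `2 ≤ l ≤ 20` and all `0 ≤ ρ ≤ 1/8` -/
theorem cert_small (l : ℕ) (h2 : 2 ≤ l) (h20 : l ≤ 20) :
    ∃ (g : ℝ) (G0 G1 G2 : ℝ⟦X⟧), Cert1 l g G0 G1 G2 := by
  interval_cases l
  · exact Dat.cert ok2
  · exact Dat.cert ok3
  · exact Dat.cert ok4
  · exact Dat.cert ok5
  · exact Dat.cert ok6
  · exact Dat.cert ok7
  · exact Dat.cert ok8
  · exact Dat.cert ok9
  · exact Dat.cert ok10
  · exact Dat.cert ok11
  · exact Dat.cert ok12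
  · exact Dat.cert ok13
  · exact Dat.cert ok14
  · exact Dat.cert ok15
  · exact Dat.cert ok16
  · exact Dat.cert ok17
  · exact Dat.cert ok18
  · exact Dat.cert ok19
  · exact Dat.cert ok20

open RT in
/-- **Case (IIIA) for a vertex of degree two above a full star with at most 20 leaves.** -/
theorem goodJ_honest_small {l : ℕ} (h2 : 2 ≤ l) (h20 : l ≤ 20) {n : ℕ} (hn : GoodUpTo n) (c W : RT)
    (hc : Honest l c) (hs : size (node 0 [c]) + size W ≤ n + 1) (hW : t W ≤ 1 / 8) :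
    GoodJ (node 0 [c]) W := by
  obtain ⟨g, G0, G1, G2, h⟩ := cert_small l h2 h20
  exact goodJ_m1 h hn c W hc hs hW

end Pool.Agent.Lib_helper1.SRCH
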